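import Pool.Agent.H516.PCF.All

/-! Directions at a disc (`S_DIR`) for the theorem on postcritically finite towers (MP_392fd3_nt). -/

namespace Pool.Agent.H746.PCF

open Polynomial Pool.Agent.H516.PCF

section
variable {F : Type} [Field F]

/-- slope of `gv U - gv V` in the direction `e` at the disc `(a, ρ)` (`none` is the outer direction) -/
noncomputable def sl (w : F → ℝ) (U V : F[X]) (a : F) (ρ : ℝ) : Option F → ℤ
  | none => (ccnt w V a ρ : ℤ) - ccnt w U a ρ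
  | some b => (cnt w U b ρ : ℤ) - cnt w V b ρ

/-- directions at the disc `(a, ρ)` -/
def ok (w : F → ℝ) (a : F) (ρ : ℝ) : Option F → Prop
  | none => True
  | some b => b = a ∨ ρ ≤ w (a - b)

/-- centre of the discs in the direction -/
def ptc (a : F) : Option F → F
  | none => a
  | some b => b

/-- radii of the discs in the direction -/
def ptr (ρ : ℝ) : Option F → ℝ → ℝ
  | none, h => ρ - h
  | some _, h => ρ + h

theorem sl_swap (w : F → ℝ) (U V : F[X]) (a : F) (ρ : ℝ) (e : Option F) :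
    sl w V U a ρ e = - sl w U V a ρ e := by
  cases e <;> simp [sl]

theorem lin [CharZero F] [IsAlgClosed F] {p : ℕ} {w : F → ℝ} (hp : p.Prime) (hna : NA p w) (hGVB : S_GVB)
    (U V : F[X]) (a : F) (ρ : ℝ) (e : Option F) (he : ok w a ρ e) :
    ∃ ε > 0, ∀ h : ℝ, 0 ≤ h → h < ε →
      gv w U (ptc a e) (ptr ρ e h) - gv w V (ptc a e) (ptr ρ e h) =
        gv w U a ρ - gv w V a ρ + sl w U V a ρ e * h := by
  obtain ⟨-, -, -, G4, -, G6⟩ := hGVB F p w hp hna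
  obtain ⟨ε₁, hε₁, H1⟩ := G6 U (ptc a e) ρ
  obtain ⟨ε₂, hε₂, H2⟩ := G6 V (ptc a e) ρ
  refine ⟨min ε₁ ε₂, lt_min hε₁ hε₂, fun h h0 hh => ?_⟩
  obtain ⟨u1, u2, -, -⟩ := H1 h h0 (lt_of_lt_of_le hh (min_le_left _ _))
  obtain ⟨v1, v2, -, -⟩ := H2 h h0 (lt_of_lt_of_le hh (min_le_right _ _))
  cases e with
  | none =>
    simp only [ptc, ptr, sl] at *
    rw [u2, v2]
    push_cast
    ring
  | some b =>
    simp only [ptc, ptr, sl, ok] at *
    rw [u1, v1, ← (G4 U a b ρ he ρ le_rfl).1, ← (G4 V a b ρ he ρ le_rfl).1]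
    push_cast
    ring

theorem star [CharZero F] [IsAlgClosed F] {p : ℕ} {w : F → ℝ} (hp : p.Prime) (hna : NA p w)
    (hNAB : S_NAB) (hGVB : S_GVB) (hUM : S_UM)
    (U₁ U₂ V : F[X]) (h1 : U₁ ≠ 0) (h2 : U₂ ≠ 0) (hV : V ≠ 0) (c : F) (hc : c ≠ 0)
    (hU : U₂ = U₁ + C c * V) (a : F) (ρ t : ℝ) (ht : w c = t)
    (hv1 : gv w U₁ a ρ - gv w V a ρ = t) (hv2 : gv w U₂ a ρ - gv w V a ρ = t)
    (e : Option F) (he : ok w a ρ e) :
    ¬ (sl w U₂ V a ρ e < sl w U₁ V a ρ e ∧ sl w U₂ V a ρ e < 0) ∧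
    ¬ (0 < sl w U₁ V a ρ e ∧ 0 < sl w U₂ V a ρ e) := by
  obtain ⟨N1, N2, -⟩ := hNAB F p w hp hna
  obtain ⟨-, G2, -⟩ := hGVB F p w hp hna
  have UM := hUM F p w hp hna
  obtain ⟨ε₁, hε₁, L1⟩ := lin hp hna hGVB U₁ V a ρ e he
  obtain ⟨ε₂, hε₂, L2⟩ := lin hp hna hGVB U₂ V a ρ e he
  have hw1 : w (-1 : F) = 0 := by rw [N2 1 one_ne_zero, N1]
  have hm : (-1 : F) ≠ 0 := neg_ne_zero.mpr one_ne_zero
  set h : ℝ := min ε₁ ε₂ / 2 with hh
  have hpos : 0 < min ε₁ ε₂ := lt_min hε₁ hε₂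
  have h0 : 0 < h := by rw [hh]; linarith
  have hlt1 : h < ε₁ := by
    have := min_le_left ε₁ ε₂
    rw [hh]; linarith
  have hlt2 : h < ε₂ := by
    have := min_le_right ε₁ ε₂
    rw [hh]; linarith
  have e1 := L1 h h0.le hlt1
  have e2 := L2 h h0.le hlt2
  rw [hv1] at e1
  rw [hv2] at e2
  have hCV : C c * V ≠ 0 := mul_ne_zero (C_ne_zero.mpr hc) hV
  have hCU : C (-1) * U₁ ≠ 0 := mul_ne_zero (C_ne_zero.mpr hm) h1
  have g1 := (UM U₁ (C c * V) U₂ h1 hCV h2 hU (ptc a e) (ptr ρ e h)).1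
  have g2 := (UM U₂ (C (-1) * U₁) (C c * V) h2 hCU hCV (by rw [hU, C_neg, C_1]; ring)
    (ptc a e) (ptr ρ e h)).1
  rw [G2 c V hc hV] at g1 g2
  rw [G2 (-1) U₁ hm h1, hw1, zero_add] at g2
  rw [ht] at g1 g2
  constructor
  · rintro ⟨ha, hb⟩
    have ha' : (sl w U₂ V a ρ e : ℝ) < sl w U₁ V a ρ e := by exact_mod_cast ha
    have hb' : (sl w U₂ V a ρ e : ℝ) < 0 := by exact_mod_cast hb
    have k1 : (sl w U₂ V a ρ e : ℝ) * h < sl w U₁ V a ρ e * h := mul_lt_mul_of_pos_right ha' h0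
    have k2 : (sl w U₂ V a ρ e : ℝ) * h < 0 := mul_neg_of_neg_of_pos hb' h0
    rcases min_le_iff.mp g1 with g | g <;> linarith
  · rintro ⟨ha, hb⟩
    have ha' : (0 : ℝ) < sl w U₁ V a ρ e := by exact_mod_cast ha
    have hb' : (0 : ℝ) < sl w U₂ V a ρ e := by exact_mod_cast hb
    have k1 := mul_pos ha' h0
    have k2 := mul_pos hb' h0
    rcases min_le_iff.mp g2 with g | g <;> linarith

theorem harm1 [CharZero F] [IsAlgClosed F] {p : ℕ} {w : F → ℝ} (hp : p.Prime) (hna : NA p w)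
    (hHARM : S_HARM) (U V : F[X]) (a : F) (ρ : ℝ)
    (h : ∃ e, ok w a ρ e ∧ 0 < sl w U V a ρ e) : ∃ e, ok w a ρ e ∧ sl w U V a ρ e < 0 := by
  by_contra hcon
  push Not at hcon
  have hin : ∀ b, (b = a ∨ ρ ≤ w (a - b)) → cnt w V b ρ ≤ cnt w U b ρ := by
    intro b hb
    have := hcon (some b) hb
    simp only [sl] at this
    omega
  obtain ⟨H1, H2⟩ := hHARM F p w hp hna U V a ρ hin
  have hout := hcon none trivial
  simp only [sl] at hout
  obtain ⟨e, he, hpos⟩ := h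
  cases e with
  | none =>
    simp only [sl] at hpos
    omega
  | some b =>
    simp only [sl] at hpos
    have := H2 b he (by omega)
    omega

theorem harm2 [CharZero F] [IsAlgClosed F] {p : ℕ} {w : F → ℝ} (hp : p.Prime) (hna : NA p w)
    (hHARM : S_HARM) (U V : F[X]) (a : F) (ρ : ℝ)
    (h : ∃ e, ok w a ρ e ∧ sl w U V a ρ e < 0) : ∃ e, ok w a ρ e ∧ 0 < sl w U V a ρ e := by
  obtain ⟨e, he, hs⟩ := h
  obtain ⟨e', he', hs'⟩ := harm1 hp hna hHARM V U a ρ ⟨e, he, by rw [sl_swap]; omega⟩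
  rw [sl_swap] at hs'
  exact ⟨e', he', by omega⟩

/-- ultrametric inequality for closed discs -/
theorem ultra [CharZero F] [IsAlgClosed F] {p : ℕ} {w : F → ℝ} (hp : p.Prime) (hna : NA p w)
    (hNAB : S_NAB) {x y z : F} {ρ : ℝ} (h1 : y = x ∨ ρ ≤ w (x - y)) (h2 : z = y ∨ ρ ≤ w (y - z)) :
    z = x ∨ ρ ≤ w (x - z) := by
  obtain ⟨-, -, -, -, -, -, -, N8, -⟩ := hNAB F p w hp hna
  by_cases hxy : y = x
  · subst hxy; exact h2
  by_cases hyz : z = y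
  · subst hyz; exact h1
  by_cases hxz : z = x
  · exact Or.inl hxz
  · right
    have a1 : ρ ≤ w (x - y) := h1.resolve_left hxy
    have a2 : ρ ≤ w (y - z) := h2.resolve_left hyz
    exact (le_min a1 a2).trans (N8 x y z (Ne.symm hxy) (Ne.symm hyz) (Ne.symm hxz))

theorem csymm [CharZero F] [IsAlgClosed F] {p : ℕ} {w : F → ℝ} (hp : p.Prime) (hna : NA p w)
    (hNAB : S_NAB) {x y : F} {ρ : ℝ} (h1 : y = x ∨ ρ ≤ w (x - y)) : x = y ∨ ρ ≤ w (y - x) := by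
  obtain ⟨-, -, -, -, -, N6, -⟩ := hNAB F p w hp hna
  by_cases hxy : x = y
  · exact Or.inl hxy
  · right
    rw [← N6 x y hxy]
    exact h1.resolve_left (Ne.symm hxy)

/-- a root in an open disc of positive count -/
theorem exists_root {w : F → ℝ} {U : F[X]} {b : F} {ρ : ℝ} (h : 0 < cnt w U b ρ) :
    ∃ z ∈ U.roots, z = b ∨ ρ < w (b - z) := by
  classical
  unfold cnt at h
  obtain ⟨z, hz⟩ := Multiset.card_pos_iff_exists_mem.mp h
  rw [Multiset.mem_filter] at hz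
  exact ⟨z, hz.1, hz.2⟩

end

theorem dir (hNAB : S_NAB) (hGVB : S_GVB) (hUM : S_UM) (hHARM : S_HARM) (hOFIB : S_OFIB) : S_DIR := by
  intro F _ _ _ p w d P Q A O hL n a ρ t E hEO _ hEt hEv γ₁ hγ₁ hcond
  have hp := hL.prime
  have hna := hL.na
  obtain ⟨-, hgp, hqn, -, -, -, hlinr, -⟩ := hOFIB F p w d P Q A O hL n
  obtain ⟨-, -, -, -, G5, -⟩ := hGVB F p w hp hna
  -- the condition (*)
  have hstar : ∀ γ ∈ E, ∀ γ' ∈ E, γ ≠ γ' → ∀ e, ok w a ρ e →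
      ¬ (sl w (gp d P Q n γ') (qn d P Q n) a ρ e < sl w (gp d P Q n γ) (qn d P Q n) a ρ e ∧
        sl w (gp d P Q n γ') (qn d P Q n) a ρ e < 0) ∧
      ¬ (0 < sl w (gp d P Q n γ) (qn d P Q n) a ρ e ∧
        0 < sl w (gp d P Q n γ') (qn d P Q n) a ρ e) := by
    intro γ hγ γ' hγ' hne e he
    exact star hp hna hNAB hGVB hUM (gp d P Q n γ) (gp d P Q n γ') (qn d P Q n) (hgp γ) (hgp γ') hqn
      (γ - γ') (sub_ne_zero.mpr hne) (hlinr γ γ') a ρ t (hEt γ hγ γ' hγ' hne)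
      (hEv γ hγ) (hEv γ' hγ') e he
  -- some direction has positive slope for `γ₁`
  have hp1 : ∃ e, ok w a ρ e ∧ 0 < sl w (gp d P Q n γ₁) (qn d P Q n) a ρ e := by
    rcases hcond with h | h
    · refine ⟨some a, Or.inl rfl, ?_⟩
      simp only [sl]
      omega
    · refine ⟨none, trivial, ?_⟩
      simp only [sl]
      omega
  obtain ⟨e₁, he₁, hneg⟩ := harm1 hp hna hHARM _ _ a ρ hp1
  have hall : ∀ γ ∈ E, ∃ e, ok w a ρ e ∧ 0 < sl w (gp d P Q n γ) (qn d P Q n) a ρ e := by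
    intro γ hγ
    refine harm2 hp hna hHARM _ _ a ρ ⟨e₁, he₁, ?_⟩
    by_cases hg : γ = γ₁
    · rw [hg]; exact hneg
    · have := (hstar γ hγ γ₁ hγ₁ hg e₁ he₁).1
      by_contra hc
      exact this ⟨by omega, hneg⟩
  -- directions of an open disc of positive slope
  have hdir : ∀ γ ∈ E, (∃ b, ok w a ρ (some b) ∧ 0 < sl w (gp d P Q n γ) (qn d P Q n) a ρ (some b)) →
      ∃ b, Dir w d P Q n a ρ γ b := by
    rintro γ hγ ⟨b, hb, hs⟩
    simp only [sl, ok] at hs hb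
    obtain ⟨z, hz, hzb⟩ := exists_root (w := w) (U := gp d P Q n γ) (b := b) (ρ := ρ) (by omega)
    refine ⟨z, hz, ultra hp hna hNAB hb (hzb.imp id le_of_lt), ?_⟩
    rw [← G5 (qn d P Q n) b z ρ hzb ρ le_rfl, ← G5 (gp d P Q n γ) b z ρ hzb ρ le_rfl]
    omega
  constructor
  · by_cases hex : ∃ γ₀ ∈ E, 0 < sl w (gp d P Q n γ₀) (qn d P Q n) a ρ none
    · obtain ⟨γ₀, hγ₀, hs₀⟩ := hex
      refine ⟨γ₀, fun γ hγ hne => ?_⟩
      obtain ⟨e, he, hs⟩ := hall γ hγ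
      cases e with
      | none => exact absurd ⟨hs, hs₀⟩ (hstar γ hγ γ₀ hγ₀ hne none he).2
      | some b => exact hdir γ hγ ⟨b, he, hs⟩
    · refine ⟨γ₁, fun γ hγ _ => ?_⟩
      obtain ⟨e, he, hs⟩ := hall γ hγ
      cases e with
      | none => exact absurd ⟨γ, hγ, hs⟩ hex
      | some b => exact hdir γ hγ ⟨b, he, hs⟩
  · intro γ hγ γ' hγ' hne b b' hb hb'
    obtain ⟨-, hb1, hb2⟩ := hb
    obtain ⟨-, hb1', hb2'⟩ := hb'
    have hno : ¬ (b' = b ∨ ρ < w (b - b')) := by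
      intro hh
      rw [← G5 (qn d P Q n) b b' ρ hh ρ le_rfl, ← G5 (gp d P Q n γ') b b' ρ hh ρ le_rfl] at hb2'
      refine (hstar γ hγ γ' hγ' hne (some b) hb1).2 ⟨?_, ?_⟩ <;> simp only [sl] <;> omega
    push Not at hno
    refine ⟨Ne.symm hno.1, le_antisymm hno.2 ?_⟩
    exact (ultra hp hna hNAB (csymm hp hna hNAB hb1) hb1').resolve_left hno.1

end Pool.Agent.H746.PCF
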