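import Pool.Agent.H516.PCF.All

/-! # PCF GLOB: a finite place with unbounded averages (helper746) -/

set_option autoImplicit false

namespace Pool.Agent.H746.PCF

open Polynomial Pool.Agent.H516.PCF

theorem glob (hGRP : S_GRP) (hARCH : S_ARCH) (hMAP : S_MAP) (hPF : S_PF) : S_GLOB := by
  intro K _ _ d P Q A hN hA hw hQ t₀ ht
  obtain ⟨Θ, hΘ⟩ := hGRP K d P Q A hN hA t₀ ht
  have hd : (2 : ℝ) ≤ d := by exact_mod_cast hN.two_le
  have h : ∀ φ : K →+* ℂ, ∃ C : ℝ, ∀ n : ℕ,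
      Real.exp ((d : ℝ) ^ n * (n / 2 * Real.log d - C)) ≤ ‖φ (en d P Q n t₀)‖ := by
    intro φ
    obtain ⟨hen, hnrm, _, hpost⟩ := hMAP K ℂ φ d P Q hN hw hQ
    obtain ⟨C, hC⟩ := hARCH d (P.map φ) (Q.map φ) (φ '' A) hnrm (hpost A hA) (φ t₀) (by
      rintro ⟨a, ha, hae⟩
      exact ht (φ.injective hae ▸ ha))
    exact ⟨C, fun n => by rw [hen]; exact hC n⟩
  choose C hC using h
  let D : ℝ := ∑ φ : K →+* ℂ, |C φ|
  have hD : ∀ φ, C φ ≤ D := fun φ => (le_abs_self _).trans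
    (Finset.single_le_sum (f := fun φ => |C φ|) (fun _ _ => abs_nonneg _) (Finset.mem_univ φ))
  have hlog : 0 < Real.log d := Real.log_pos (by linarith)
  obtain ⟨v, hv⟩ := hPF K Θ (fun n => en d P Q n t₀) hΘ (fun n => (d : ℝ) ^ n)
    (fun n => n / 2 * Real.log d - D) (fun n => by positivity) (by
      refine Filter.tendsto_atTop_add_const_right _ _ ?_
      refine Filter.Tendsto.atTop_mul_const hlog ?_
      exact Filter.Tendsto.atTop_div_const two_pos tendsto_natCast_atTop_atTop)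
    (fun φ n => by
      refine le_trans (Real.exp_le_exp.2 ?_) (hC φ n)
      refine mul_le_mul_of_nonneg_left ?_ (by positivity)
      linarith [hD φ])
  exact ⟨v, fun C => hv C⟩

end Pool.Agent.H746.PCF
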